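import Pool.Agent.H525R3.PFin

/-!
# It is consistent with ZF that there is a set `a` with a bijection from `Sym(a)` onto `[a]^3`

The definitions used in the statement are in `Pool.Agent.H525R3.PLang` (`PairIn`, `IsBijection`,
`IsSym`, `IsTriple`, `IsTriples`), `Pool.Agent.H635R2.Statement` (`ZF`) and
`Pool.Agent.Helper672.SIK.Plain` (the language `LSet`, `Mem`, `Zermelo`, `IsPair`, `IsOrdPair`).

The proof. Let `A` be the union of disjoint blocks `B n` (`n` a natural number) of three elements
each. The three element subsets of `A` other than the blocks are coded by permutations of `A` with
finite support: a set that meets three blocks in one point each is coded by the permutation that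
exchanges the other two points of each of the three blocks, and a set `{p, q, r}` with `p`, `q` in
one block whose third point is `s`, and `r` in another block, is coded by the permutation that
exchanges `p` with `q` and `s` with `r`. Enumerate the permutations with finite support that are not
codes as `e 0, e 1, ...` so that the support of `e n` is contained in `B 0, ..., B (n - 1)`. Let `Γ`
be the group of the permutations `γ` of `A` such that, whenever `γ` maps a point of `B m` into
`B n`, then `e n = γ (e m) γ⁻¹`. The map that sends `e n` to `B n`, and a code to the set
that it codes, is a `Γ`-equivariant bijection from the permutations with finite support onto the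
three element subsets. Every permutation of one block `B n` extends to an element of `Γ` that fixes
all points of `B 0, ..., B (n - 1)`. The model is the symmetric extension by sets `x a` of Cohen
reals (`a` in `A`) given by the group of the permutations of the reals that lie over elements of
`Γ`, with supports `B 0, ..., B (n - 1)`. In it, all permutations of the set of the `x a` have
finite support.
-/

namespace Pool.Agent.Results.MP_7d095a_lc.SymEqTriples

open FirstOrder FirstOrder.Language
open Pool.Agent.Helper672.Plain (LSet)
open Pool.Agent.H635Amen (ZF)
open Pool.Agent.H525Sym

universe u

/-- If there is a model of ZF, then there is a model of ZF with a set `a`, the set `s` of all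
permutations of `a`, the set `t` of all three element subsets of `a`, and a bijection `F` from `s`
onto `t`. -/
theorem result (M : Type u) [LSet.Structure M] (hM : ZF M) :
    ∃ (N : Type u) (_ : LSet.Structure N), ZF N ∧
      ∃ a s t F : N, IsSym s a ∧ IsTriples t a ∧ IsBijection F s t :=
  Pool.Agent.H525P.conclusion M hM

end Pool.Agent.Results.MP_7d095a_lc.SymEqTriples
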